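import Mathlib
import Pool.Agent.W94.GoldCount

set_option autoImplicit false

namespace Pool.Agent.Results.MP_92f640_nt.BoundedMultiples

open Pool.Agent.W94.Gold (cnt cnt_le)

/-- `g n`: the number of ordered representations of `n` as a sum of two primes. -/
def g (n : ℕ) : ℕ := ((Finset.range (n + 1)).filter (fun p : ℕ => p.Prime ∧ (n - p).Prime)).card

/-- `n` is exceptional for the constant `c`: `g n < c n / log² n`. -/
def Exc (c : ℝ) (n : ℕ) : Prop := (g n : ℝ) < c * (n : ℝ) / (Real.log (n : ℝ)) ^ 2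

/-- the assertion asked about in Q1 -/
def Assertion : Prop :=
  ∃ c : ℝ, 0 < c ∧ ∃ X₀ : ℝ, ∀ x : ℝ, X₀ ≤ x → ∀ q : ℕ, 0 < q → (q : ℝ) ≤ x / 4 →
    ({n : ℕ | x / 2 < (n : ℝ) ∧ (n : ℝ) ≤ x ∧ Even n ∧ q ∣ n ∧ Exc c n}.ncard : ℝ)
      ≤ x / (8 * (q : ℝ))

/-- the thirty values of `m` at which the finitely many extra conditions live -/
def excl : List ℕ := [13, 14, 15, 17, 18, 19, 20, 21, 22, 23, 24, 25, 29, 30, 31, 32, 33, 37, 43, 44,
  45, 47, 53, 54, 55, 61, 71, 73, 79, 199]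

theorem fin_aux (x : ℝ) (P : ℕ → Prop) : {n : ℕ | x / 2 < (n : ℝ) ∧ (n : ℝ) ≤ x ∧ P n}.Finite := by
  apply Set.Finite.subset (Set.finite_Iic ⌊x⌋₊)
  rintro n ⟨-, h2, -⟩
  exact Nat.le_floor h2

theorem forward (h : Assertion) :
    ∃ c : ℝ, 0 < c ∧ ∃ N : ℕ,
      (∀ n : ℕ, N ≤ n → Even n → (3 ∣ n ∨ 4 ∣ n ∨ 5 ∣ n ∨ 7 ∣ n) → ¬ Exc c n) ∧
      (∀ q : ℕ, N ≤ q → q % 4 = 2 → Nat.Coprime q 105 → ∀ m ∈ excl,
        8 * {j : ℕ | m / 2 < j ∧ j ≤ m ∧ Exc c (j * q)}.ncard ≤ m) := by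
  obtain ⟨c, hc, X₀, h⟩ := h
  refine ⟨c, hc, max 8 ⌈X₀⌉₊, ?_, ?_⟩
  · intro n hn he hd hx
    have hn8 : 8 ≤ n := le_trans (le_max_left _ _) hn
    have hnX : X₀ ≤ (n : ℝ) :=
      le_trans (Nat.le_ceil X₀) (by exact_mod_cast le_trans (le_max_right _ _) hn)
    obtain ⟨k, hk4, hk8, hkn⟩ : ∃ k : ℕ, 4 ≤ k ∧ k < 8 ∧ k ∣ n := by
      rcases hd with h3 | h4 | h5 | h7
      · exact ⟨6, by norm_num, by norm_num, by
          obtain ⟨a, ha⟩ := he
          omega⟩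
      · exact ⟨4, by norm_num, by norm_num, h4⟩
      · exact ⟨5, by norm_num, by norm_num, h5⟩
      · exact ⟨7, by norm_num, by norm_num, h7⟩
    obtain ⟨q, rfl⟩ := hkn
    have hq : 0 < q := by
      rcases Nat.eq_zero_or_pos q with h0 | h0
      · subst h0; omega
      · exact h0
    have hqR : (0 : ℝ) < q := by exact_mod_cast hq
    have hkR : (4 : ℝ) ≤ k := by exact_mod_cast hk4
    have hkR' : (k : ℝ) < 8 := by exact_mod_cast hk8
    have h1 := h ((k * q : ℕ) : ℝ) hnX q hq (by push_cast; nlinarith)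
    have h2 : ((k * q : ℕ) : ℝ) / (8 * (q : ℝ)) < 1 := by
      push_cast
      rw [div_lt_one (by positivity)]
      nlinarith
    have h3 : {n : ℕ | ((k * q : ℕ) : ℝ) / 2 < (n : ℝ) ∧ (n : ℝ) ≤ ((k * q : ℕ) : ℝ) ∧ Even n ∧
        q ∣ n ∧ Exc c n}.ncard = 0 := by
      have : ({n : ℕ | ((k * q : ℕ) : ℝ) / 2 < (n : ℝ) ∧ (n : ℝ) ≤ ((k * q : ℕ) : ℝ) ∧ Even n ∧
        q ∣ n ∧ Exc c n}.ncard : ℝ) < 1 := lt_of_le_of_lt h1 h2
      have h4 : {n : ℕ | ((k * q : ℕ) : ℝ) / 2 < (n : ℝ) ∧ (n : ℝ) ≤ ((k * q : ℕ) : ℝ) ∧ Even n ∧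
        q ∣ n ∧ Exc c n}.ncard < 1 := by exact_mod_cast this
      omega
    rw [Set.ncard_eq_zero (fin_aux _ _)] at h3
    have h4 : (k * q) ∈ {n : ℕ | ((k * q : ℕ) : ℝ) / 2 < (n : ℝ) ∧ (n : ℝ) ≤ ((k * q : ℕ) : ℝ) ∧
        Even n ∧ q ∣ n ∧ Exc c n} := by
      refine ⟨?_, le_refl _, he, Dvd.intro_left k rfl, hx⟩
      push_cast
      nlinarith
    rw [h3] at h4
    exact h4
  · intro q hq hq4 hqc m hm
    have hq8 : 8 ≤ q := le_trans (le_max_left _ _) hq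
    have hqX : X₀ ≤ (q : ℝ) :=
      le_trans (Nat.le_ceil X₀) (by exact_mod_cast le_trans (le_max_right _ _) hq)
    have hm4 : 4 ≤ m := by
      unfold excl at hm
      simp only [List.mem_cons, List.not_mem_nil, or_false] at hm
      omega
    have hqR : (0 : ℝ) < q := by exact_mod_cast (by omega : 0 < q)
    have hmR : (4 : ℝ) ≤ m := by exact_mod_cast hm4
    have h1 := h ((m : ℝ) * q) (by nlinarith) q (by omega) (by nlinarith)
    have h2 : (m : ℝ) * q / (8 * q) = m / 8 := by field_simp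
    rw [h2] at h1
    have h3 : {j : ℕ | m / 2 < j ∧ j ≤ m ∧ Exc c (j * q)}.ncard
        ≤ {n : ℕ | (m : ℝ) * q / 2 < (n : ℝ) ∧ (n : ℝ) ≤ (m : ℝ) * q ∧ Even n ∧ q ∣ n ∧
          Exc c n}.ncard := by
      refine Set.ncard_le_ncard_of_injOn (fun j => j * q) ?_ ?_ (fin_aux _ _)
      · rintro j ⟨hj1, hj2, hj3⟩
        have hj1' : m + 1 ≤ 2 * j := by omega
        have hj1R : (m : ℝ) + 1 ≤ 2 * j := by exact_mod_cast hj1'
        have hj2R : (j : ℝ) ≤ m := by exact_mod_cast hj2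
        refine ⟨?_, ?_, ?_, Dvd.intro_left j rfl, hj3⟩
        · push_cast
          nlinarith
        · push_cast
          nlinarith
        · exact Even.mul_left (Nat.even_iff.mpr (by omega)) j
      · intro a _ b _ hab
        exact Nat.eq_of_mul_eq_mul_right (by omega) hab
    have h4 : (8 * {j : ℕ | m / 2 < j ∧ j ≤ m ∧ Exc c (j * q)}.ncard : ℝ) ≤ m := by
      have h5 : ({j : ℕ | m / 2 < j ∧ j ≤ m ∧ Exc c (j * q)}.ncard : ℝ) ≤ m / 8 :=
        le_trans (by exact_mod_cast h3) h1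
      linarith
    exact_mod_cast h4

/-- the count for even `q` -/
theorem even_case {c : ℝ} {N : ℕ}
    (h1 : ∀ n : ℕ, N ≤ n → Even n → (3 ∣ n ∨ 4 ∣ n ∨ 5 ∣ n ∨ 7 ∣ n) → ¬ Exc c n)
    (h2 : ∀ q : ℕ, N ≤ q → q % 4 = 2 → Nat.Coprime q 105 → ∀ m ∈ excl,
        8 * {j : ℕ | m / 2 < j ∧ j ≤ m ∧ Exc c (j * q)}.ncard ≤ m)
    (x : ℝ) (hx : 200 * (N + 1 : ℝ) ≤ x) (q : ℕ) (hq : 0 < q) (hq2 : Even q)
    (hqx : (q : ℝ) ≤ x / 4) :
    ({n : ℕ | x / 2 < (n : ℝ) ∧ (n : ℝ) ≤ x ∧ Even n ∧ q ∣ n ∧ Exc c n}.ncard : ℝ)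
      ≤ x / (8 * (q : ℝ)) := by
  have hqR : (0 : ℝ) < q := by exact_mod_cast hq
  have hx0 : 0 < x := by
    have : (0 : ℝ) ≤ N := Nat.cast_nonneg N
    nlinarith
  -- exceptional multiples are not divisible by 3, 4, 5, 7
  have key : ∀ n ∈ {n : ℕ | x / 2 < (n : ℝ) ∧ (n : ℝ) ≤ x ∧ Even n ∧ q ∣ n ∧ Exc c n},
      ¬ (3 ∣ n ∨ 4 ∣ n ∨ 5 ∣ n ∨ 7 ∣ n) := by
    rintro n ⟨hn1, hn2, hn3, hn4, hn5⟩ hd
    refine h1 n ?_ hn3 hd hn5
    have : (N : ℝ) ≤ n := by
      have : (0 : ℝ) ≤ N := Nat.cast_nonneg N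
      nlinarith
    exact_mod_cast this
  by_cases hgood : q % 4 = 2 ∧ Nat.Coprime q 105
  · obtain ⟨hq4, hqc⟩ := hgood
    set m : ℕ := ⌊x / q⌋₊ with hm
    have hm1 : (m : ℝ) ≤ x / q := Nat.floor_le (by positivity)
    have hm2 : x / q < m + 1 := Nat.lt_floor_add_one _
    have hm4 : 4 ≤ m := by
      apply Nat.le_floor
      rw [le_div_iff₀ hqR]
      push_cast
      linarith
    have hsub : {n : ℕ | x / 2 < (n : ℝ) ∧ (n : ℝ) ≤ x ∧ Even n ∧ q ∣ n ∧ Exc c n}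
        ⊆ (fun j => j * q) '' {j : ℕ | m / 2 < j ∧ j ≤ m ∧ Exc c (j * q)} := by
      rintro n ⟨hn1, hn2, hn3, ⟨j, rfl⟩, hn5⟩
      refine ⟨j, ⟨?_, ?_, ?_⟩, mul_comm j q⟩
      · push_cast at hn1
        have h3 : x / q < 2 * j := by
          rw [div_lt_iff₀ hqR]
          linarith
        have h4 : (m : ℝ) < 2 * j := lt_of_le_of_lt hm1 h3
        have h5 : m < 2 * j := by exact_mod_cast h4
        omega
      · apply Nat.le_floor
        rw [le_div_iff₀ hqR]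
        push_cast at hn2
        linarith
      · rw [mul_comm]; exact hn5
    have hfin : {j : ℕ | m / 2 < j ∧ j ≤ m ∧ Exc c (j * q)}.Finite :=
      (Set.finite_Iic m).subset fun j hj => hj.2.1
    have hcard : {n : ℕ | x / 2 < (n : ℝ) ∧ (n : ℝ) ≤ x ∧ Even n ∧ q ∣ n ∧ Exc c n}.ncard
        ≤ {j : ℕ | m / 2 < j ∧ j ≤ m ∧ Exc c (j * q)}.ncard :=
      le_trans (Set.ncard_le_ncard hsub (hfin.image _)) (Set.ncard_image_le hfin)
    have hmain : 8 * {n : ℕ | x / 2 < (n : ℝ) ∧ (n : ℝ) ≤ x ∧ Even n ∧ q ∣ n ∧ Exc c n}.ncard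
        ≤ m := by
      by_cases hme : m ∈ excl
      · have hm199 : m ≤ 199 := by
          unfold excl at hme
          simp only [List.mem_cons, List.not_mem_nil, or_false] at hme
          omega
        have hNq : N ≤ q := by
          have h3 : x < (m + 1) * q := (div_lt_iff₀ hqR).mp hm2
          have h4 : (m : ℝ) ≤ 199 := by exact_mod_cast hm199
          have h5 : (N : ℝ) ≤ q := by nlinarith
          exact_mod_cast h5
        have := h2 q hNq hq4 hqc m hme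
        omega
      · -- count integers prime to 210
        have hsub2 : {n : ℕ | x / 2 < (n : ℝ) ∧ (n : ℝ) ≤ x ∧ Even n ∧ q ∣ n ∧ Exc c n}
            ⊆ (fun j => j * q) '' (((Finset.Ioc (m / 2) m).filter
              (fun j => Nat.Coprime j 210) : Finset ℕ) : Set ℕ) := by
          intro n hn
          have hk := key n hn
          obtain ⟨j, ⟨hj1, hj2, hj3⟩, rfl⟩ := hsub hn
          refine ⟨j, ?_, rfl⟩
          rw [Finset.mem_coe, Finset.mem_filter, Finset.mem_Ioc]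
          refine ⟨⟨hj1, hj2⟩, ?_⟩
          have e3 : ¬ 3 ∣ j := fun h => hk (Or.inl (Dvd.dvd.mul_right h q))
          have e5 : ¬ 5 ∣ j := fun h => hk (Or.inr (Or.inr (Or.inl (Dvd.dvd.mul_right h q))))
          have e7 : ¬ 7 ∣ j := fun h => hk (Or.inr (Or.inr (Or.inr (Dvd.dvd.mul_right h q))))
          have e2 : ¬ 2 ∣ j := by
            intro h
            apply hk
            right; left
            obtain ⟨a, ha⟩ := h
            obtain ⟨b, hb⟩ := hq2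
            subst ha
            rw [hb]
            exact ⟨a * b, by ring⟩
          have p2 : Nat.Coprime j 2 := ((Nat.Prime.coprime_iff_not_dvd Nat.prime_two).mpr e2).symm
          have p3 : Nat.Coprime j 3 := ((Nat.Prime.coprime_iff_not_dvd Nat.prime_three).mpr e3).symm
          have p5 : Nat.Coprime j 5 := ((Nat.Prime.coprime_iff_not_dvd (by norm_num)).mpr e5).symm
          have p7 : Nat.Coprime j 7 := ((Nat.Prime.coprime_iff_not_dvd (by norm_num)).mpr e7).symm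
          have : Nat.Coprime j (2 * 3 * 5 * 7) :=
            Nat.Coprime.mul_right (Nat.Coprime.mul_right (Nat.Coprime.mul_right p2 p3) p5) p7
          simpa using this
        have h6 : {n : ℕ | x / 2 < (n : ℝ) ∧ (n : ℝ) ≤ x ∧ Even n ∧ q ∣ n ∧ Exc c n}.ncard
            ≤ cnt m := by
          refine le_trans (Set.ncard_le_ncard hsub2 ((Finset.finite_toSet _).image _)) ?_
          refine le_trans (Set.ncard_image_le (Finset.finite_toSet _)) ?_
          rw [Set.ncard_coe_finset]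
          exact le_of_eq rfl
        have h7 := cnt_le m hm4 (by
          intro h
          exact hme h)
        omega
    have h8 : (8 * {n : ℕ | x / 2 < (n : ℝ) ∧ (n : ℝ) ≤ x ∧ Even n ∧ q ∣ n ∧
        Exc c n}.ncard : ℝ) ≤ x / q := le_trans (by exact_mod_cast hmain) hm1
    have h9 : x / (8 * q) = (x / q) / 8 := by field_simp
    rw [h9]
    linarith
  · -- no exceptions at all
    have hemp : {n : ℕ | x / 2 < (n : ℝ) ∧ (n : ℝ) ≤ x ∧ Even n ∧ q ∣ n ∧ Exc c n} = ∅ := by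
      rw [Set.eq_empty_iff_forall_notMem]
      intro n hn
      have hk := key n hn
      obtain ⟨-, -, -, hqn, -⟩ := hn
      apply hgood
      have e3 : ¬ 3 ∣ q := fun h => hk (Or.inl (h.trans hqn))
      have e4 : ¬ 4 ∣ q := fun h => hk (Or.inr (Or.inl (h.trans hqn)))
      have e5 : ¬ 5 ∣ q := fun h => hk (Or.inr (Or.inr (Or.inl (h.trans hqn))))
      have e7 : ¬ 7 ∣ q := fun h => hk (Or.inr (Or.inr (Or.inr (h.trans hqn))))
      refine ⟨?_, ?_⟩
      · obtain ⟨b, hb⟩ := hq2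
        omega
      · have p3 : Nat.Coprime q 3 := ((Nat.Prime.coprime_iff_not_dvd Nat.prime_three).mpr e3).symm
        have p5 : Nat.Coprime q 5 := ((Nat.Prime.coprime_iff_not_dvd (by norm_num)).mpr e5).symm
        have p7 : Nat.Coprime q 7 := ((Nat.Prime.coprime_iff_not_dvd (by norm_num)).mpr e7).symm
        have : Nat.Coprime q (3 * 5 * 7) := Nat.Coprime.mul_right (Nat.Coprime.mul_right p3 p5) p7
        simpa using this
    rw [hemp, Set.ncard_empty, Nat.cast_zero]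
    positivity

theorem backward (h : ∃ c : ℝ, 0 < c ∧ ∃ N : ℕ,
      (∀ n : ℕ, N ≤ n → Even n → (3 ∣ n ∨ 4 ∣ n ∨ 5 ∣ n ∨ 7 ∣ n) → ¬ Exc c n) ∧
      (∀ q : ℕ, N ≤ q → q % 4 = 2 → Nat.Coprime q 105 → ∀ m ∈ excl,
        8 * {j : ℕ | m / 2 < j ∧ j ≤ m ∧ Exc c (j * q)}.ncard ≤ m)) : Assertion := by
  obtain ⟨c, hc, N, h1, h2⟩ := h
  refine ⟨c, hc, 200 * (N + 1 : ℝ), ?_⟩
  intro x hx q hq hqx
  have hqR : (0 : ℝ) < q := by exact_mod_cast hq
  have hN0 : (0 : ℝ) ≤ N := Nat.cast_nonneg N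
  have hx0 : 0 < x := by nlinarith
  rcases Nat.even_or_odd q with he | ho
  · exact even_case h1 h2 x hx q hq he hqx
  · -- even multiples of an odd q are the multiples of 2q
    have hset : {n : ℕ | x / 2 < (n : ℝ) ∧ (n : ℝ) ≤ x ∧ Even n ∧ q ∣ n ∧ Exc c n}
        = {n : ℕ | x / 2 < (n : ℝ) ∧ (n : ℝ) ≤ x ∧ Even n ∧ (2 * q) ∣ n ∧ Exc c n} := by
      ext n
      simp only [Set.mem_ofPred_eq]
      constructor
      · rintro ⟨a1, a2, a3, a4, a5⟩
        refine ⟨a1, a2, a3, ?_, a5⟩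
        exact Nat.Coprime.mul_dvd_of_dvd_of_dvd
          (Nat.coprime_two_left.mpr ho) (even_iff_two_dvd.mp a3) a4
      · rintro ⟨a1, a2, a3, a4, a5⟩
        exact ⟨a1, a2, a3, (Dvd.intro_left 2 rfl).trans a4, a5⟩
    rw [hset]
    by_cases hq4 : ((2 * q : ℕ) : ℝ) ≤ x / 4
    · refine le_trans (even_case h1 h2 x hx (2 * q) (by omega) (even_two_mul q) hq4) ?_
      push_cast
      apply div_le_div_of_nonneg_left hx0.le (by positivity)
      nlinarith
    · have hemp : {n : ℕ | x / 2 < (n : ℝ) ∧ (n : ℝ) ≤ x ∧ Even n ∧ (2 * q) ∣ n ∧ Exc c n}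
          = ∅ := by
        rw [Set.eq_empty_iff_forall_notMem]
        rintro n ⟨a1, a2, a3, ⟨i, rfl⟩, a5⟩
        push_cast at a1 a2 hq4
        have hi4 : i < 4 := by
          by_contra hcon
          have : (4 : ℝ) ≤ i := by exact_mod_cast (not_lt.mp hcon)
          nlinarith
        have hi1 : 1 < i := by
          by_contra hcon
          have : (i : ℝ) ≤ 1 := by exact_mod_cast (not_lt.mp hcon)
          nlinarith
        refine h1 (2 * q * i) ?_ a3 ?_ a5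
        · have h3 : (N : ℝ) ≤ 2 * q * i := by nlinarith
          exact_mod_cast h3
        · interval_cases i
          · right; left
            exact ⟨q, by ring⟩
          · left
            exact ⟨2 * q, by ring⟩
      rw [hemp, Set.ncard_empty, Nat.cast_zero]
      positivity

/-- Q1 is equivalent to a statement about boundedly many multiples: the weak Hardy-Littlewood lower
bound for all large even `n` divisible by `3`, `4`, `5` or `7`, together with thirty finite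
conditions on the multiples `j q`, `m/2 < j ≤ m`, of `q ≡ 2 mod 4` prime to `105`. -/
theorem result :
    (∃ c : ℝ, 0 < c ∧ ∃ X₀ : ℝ, ∀ x : ℝ, X₀ ≤ x → ∀ q : ℕ, 0 < q → (q : ℝ) ≤ x / 4 →
      ({n : ℕ | x / 2 < (n : ℝ) ∧ (n : ℝ) ≤ x ∧ Even n ∧ q ∣ n ∧ Exc c n}.ncard : ℝ)
        ≤ x / (8 * (q : ℝ)))
    ↔ ∃ c : ℝ, 0 < c ∧ ∃ N : ℕ,
      (∀ n : ℕ, N ≤ n → Even n → (3 ∣ n ∨ 4 ∣ n ∨ 5 ∣ n ∨ 7 ∣ n) → ¬ Exc c n) ∧
      (∀ q : ℕ, N ≤ q → q % 4 = 2 → Nat.Coprime q 105 → ∀ m ∈ excl,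
        8 * {j : ℕ | m / 2 < j ∧ j ≤ m ∧ Exc c (j * q)}.ncard ≤ m) :=
  ⟨forward, backward⟩

end Pool.Agent.Results.MP_92f640_nt.BoundedMultiples
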